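import Pool.Agent.CHE.Swap

/-! # An involution which exchanges the names of two members of a chain is impossible -/

namespace Pool.Agent.ZFM.Che

variable {S C : Type*}

/-- `Ri n v` = conditions forcing `x(i, n) = v`, `Ti n v` = its minimal elements. -/
theorem swap_core [DecidableEq (S × C)] {p0 : Finset (S × C)} (hp0f : Fnl p0) {π : S → S}
    (hπ : ∀ a, π (π a) = a) (hp0 : ∀ x ∈ p0, π x.1 = x.1)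
    {Ri Rj Ti Tj : ℕ → ℕ → Set (Finset (S × C))}
    (hRi : ∀ n v s, s ∈ Ri n v ↔ Fnl s ∧ ∃ t ∈ Ti n v, t ⊆ s)
    (hRj : ∀ n v s, s ∈ Rj n v ↔ Fnl s ∧ ∃ t ∈ Tj n v, t ⊆ s)
    (hij : ∀ n v, ∀ t ∈ Ti n v, mp π t ∈ Tj n v) (hji : ∀ n v, ∀ t ∈ Tj n v, mp π t ∈ Ti n v)
    (hdi : ∀ q, Fnl q → p0 ⊆ q → ∀ n, ∃ q', Fnl q' ∧ q ⊆ q' ∧ ∃ v, q' ∈ Ri n v)
    (hdj : ∀ q, Fnl q → p0 ⊆ q → ∀ n, ∃ q', Fnl q' ∧ q ⊆ q' ∧ ∃ v, q' ∈ Rj n v)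
    (hlt : ∀ q, Fnl q → p0 ⊆ q → ∃ q', Fnl q' ∧ q ⊆ q' ∧ ∃ N, ∀ n, N ≤ n → ∀ q'', Fnl q'' →
      q' ⊆ q'' → ∀ v w, q'' ∈ Ri n v → q'' ∈ Rj n w → v < w) : False := by
  obtain ⟨q', hq', hpq', N, hN⟩ := hlt p0 hp0f (Finset.Subset.refl _)
  have hr : Fnl (mp π q') := fnl_mp hπ hq'
  have hpr : p0 ⊆ mp π q' := by
    have := mp_mono (f := π) hpq'
    rwa [mp_fix hp0] at this
  obtain ⟨r', hr', hrr', N', hN'⟩ := hlt _ hr hpr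
  obtain ⟨r1, hr1, hrr1, v, hv⟩ := hdi r' hr' (hpr.trans hrr') (max N N')
  obtain ⟨r2, hr2, hrr2, w, hw⟩ := hdj r1 hr1 ((hpr.trans hrr').trans hrr1) (max N N')
  have hv2 : r2 ∈ Ri (max N N') v := by
    obtain ⟨_, t, ht, hts⟩ := (hRi _ _ _).1 hv
    exact (hRi _ _ _).2 ⟨hr2, t, ht, hts.trans hrr2⟩
  have h1 : v < w := hN' _ (le_max_right _ _) r2 hr2 (hrr1.trans hrr2) v w hv2 hw
  have hq2 : q' ⊆ mp π r2 := by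
    have := mp_mono (f := π) ((hrr'.trans hrr1).trans hrr2)
    rwa [mp_mp hπ] at this
  have h2 : mp π r2 ∈ Rj (max N N') v := by
    obtain ⟨_, t, ht, hts⟩ := (hRi _ _ _).1 hv2
    exact (hRj _ _ _).2 ⟨fnl_mp hπ hr2, mp π t, hij _ _ t ht, mp_mono hts⟩
  have h3 : mp π r2 ∈ Ri (max N N') w := by
    obtain ⟨_, t, ht, hts⟩ := (hRj _ _ _).1 hw
    exact (hRi _ _ _).2 ⟨fnl_mp hπ hr2, mp π t, hji _ _ t ht, mp_mono hts⟩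
  have h4 : w < v := hN _ (le_max_left _ _) _ (fnl_mp hπ hr2) hq2 w v h3 h2
  exact absurd h1 (not_lt.2 h4.le)

/-- The contradiction for a homogeneous triple: `Ai`, `Aj`, `Ak` carry the minimal elements, `Li`,
`Lj`, `Lk` are their labels. -/
theorem triple_core {D : Type*} {p0 : Finset (S × C)} (hp0f : Fnl p0)
    {Ai Aj Ak : Set S} {Li Lj Lk : S → D} (hi : Set.InjOn Li Ai) (hj : Set.InjOn Lj Aj)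
    (h1 : ∀ d e, (∃ a, a ∈ Ai ∧ a ∈ Aj ∧ Li a = d ∧ Lj a = e) ↔
      ∃ a, a ∈ Ai ∧ a ∈ Ak ∧ Li a = d ∧ Lk a = e)
    (h2 : ∀ d e, (∃ a, a ∈ Ai ∧ a ∈ Aj ∧ Li a = d ∧ Lj a = e) ↔
      ∃ a, a ∈ Aj ∧ a ∈ Ak ∧ Lj a = d ∧ Lk a = e)
    (hr : Li '' Ai = Lj '' Aj) (hpi : ∀ x ∈ p0, x.1 ∈ Ai) (hpj : ∀ x ∈ p0, x.1 ∈ Aj)
    {Ri Rj Ti Tj : ℕ → ℕ → Set (Finset (S × C))}
    (hRi : ∀ n v s, s ∈ Ri n v ↔ Fnl s ∧ ∃ t ∈ Ti n v, t ⊆ s)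
    (hRj : ∀ n v s, s ∈ Rj n v ↔ Fnl s ∧ ∃ t ∈ Tj n v, t ⊆ s)
    (hTi : ∀ n v, ∀ s ∈ Ti n v, ∀ x ∈ s, x.1 ∈ Ai) (hTj : ∀ n v, ∀ s ∈ Tj n v, ∀ x ∈ s, x.1 ∈ Aj)
    (hc : ∀ n v, ∀ s ∈ Ti n v, ∃ s' ∈ Tj n v, ∀ d c, (∃ a, (a, c) ∈ s ∧ Li a = d) ↔
      ∃ a, (a, c) ∈ s' ∧ Lj a = d)
    (hc' : ∀ n v, ∀ s ∈ Tj n v, ∃ s' ∈ Ti n v, ∀ d c, (∃ a, (a, c) ∈ s ∧ Lj a = d) ↔
      ∃ a, (a, c) ∈ s' ∧ Li a = d)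
    (hdi : ∀ q, Fnl q → p0 ⊆ q → ∀ n, ∃ q', Fnl q' ∧ q ⊆ q' ∧ ∃ v, q' ∈ Ri n v)
    (hdj : ∀ q, Fnl q → p0 ⊆ q → ∀ n, ∃ q', Fnl q' ∧ q ⊆ q' ∧ ∃ v, q' ∈ Rj n v)
    (hlt : ∀ q, Fnl q → p0 ⊆ q → ∃ q', Fnl q' ∧ q ⊆ q' ∧ ∃ N, ∀ n, N ≤ n → ∀ q'', Fnl q'' →
      q' ⊆ q'' → ∀ v w, q'' ∈ Ri n v → q'' ∈ Rj n w → v < w) : False := by
  classical
  obtain ⟨π, hπ, hA, hB, hfix⟩ := exists_swap hi hj hr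
    fun a ha ha' => label_eq hi hj h1 h2 ha ha'
  refine swap_core hp0f hπ (fun x hx => hfix _ (hpi x hx) (hpj x hx)) hRi hRj ?_ ?_ hdi hdj hlt
  · intro n v t ht
    refine mp_mem hj hA (hTi n v) (hTj n v) ?_ ht
    intro s hs
    obtain ⟨s', hs', he⟩ := hc n v s hs
    refine ⟨s', hs', ?_⟩
    ext ⟨d, c⟩
    rw [mem_mp, mem_mp]; exact he d c
  · intro n v t ht
    refine mp_mem hi hB (hTj n v) (hTi n v) ?_ ht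
    intro s hs
    obtain ⟨s', hs', he⟩ := hc' n v s hs
    refine ⟨s', hs', ?_⟩
    ext ⟨d, c⟩
    rw [mem_mp, mem_mp]; exact he d c

end Pool.Agent.ZFM.Che
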