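import Mathlib

/-! # Greedy branches: the combinatorial core of the partition theorem -/

namespace Pool.Agent.ZFM.Che

variable {I X : Type*} [LinearOrder I] [WellFoundedLT I]

section

variable {t : I → I → X} {B : I → Set I}

omit [WellFoundedLT I] in
theorem greedy_eq (hB : ∀ j l, l ∈ B j ↔ l < j ∧ ∀ b ∈ B j, b < l → t b l = t b j)
    (hno : ∀ i j k, i < j → j < k → t i j = t j k → t i j = t i k → False) {j l l' : I}
    (hl : l ∈ B j) (hl' : l' ∈ B j) (h : t l j = t l' j) : l = l' := by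
  have key : ∀ a b, a ∈ B j → b ∈ B j → a < b → t a j ≠ t b j := by
    intro a b ha hb hab he
    have h1 : t a b = t a j := ((hB j b).1 hb).2 a ha hab
    exact hno a b j hab ((hB j b).1 hb).1 (h1.trans he) h1
  rcases lt_trichotomy l l' with h' | h' | h'
  · exact absurd h (key l l' hl hl' h')
  · exact h'
  · exact absurd h.symm (key l' l hl' hl h')

theorem greedy_aux (hB : ∀ j l, l ∈ B j ↔ l < j ∧ ∀ b ∈ B j, b < l → t b l = t b j)
    (hno : ∀ i j k, i < j → j < k → t i j = t j k → t i j = t i k → False) {j j' : I}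
    (hjj : j < j')
    (hW : ∀ x y, (∃ l ∈ B j, ∃ l' ∈ B j, l ≤ l' ∧ x = t l j ∧ y = t l' j) ↔
      ∃ l ∈ B j', ∃ l' ∈ B j', l ≤ l' ∧ x = t l j' ∧ y = t l' j') : False := by
  -- the matching `φ` as a relation
  have hφ : ∀ l ∈ B j, ∃ m ∈ B j', t l j = t m j' := by
    intro l hl
    obtain ⟨m, hm, m', -, -, h1, -⟩ := (hW (t l j) (t l j)).1 ⟨l, hl, l, hl, le_rfl, rfl, rfl⟩
    exact ⟨m, hm, h1⟩
  have hψ : ∀ m ∈ B j', ∃ l ∈ B j, t l j = t m j' := by
    intro m hm
    obtain ⟨l, hl, l', -, -, h1, -⟩ := (hW (t m j') (t m j')).2 ⟨m, hm, m, hm, le_rfl, rfl, rfl⟩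
    exact ⟨l, hl, h1.symm⟩
  have hmono : ∀ l ∈ B j, ∀ l' ∈ B j, ∀ m ∈ B j', ∀ m' ∈ B j', t l j = t m j' →
      t l' j = t m' j' → l ≤ l' → m ≤ m' := by
    intro l hl l' hl' m hm m' hm' h1 h2 hle
    obtain ⟨n, hn, n', hn', hnn, h3, h4⟩ := (hW (t l j) (t l' j)).1
      ⟨l, hl, l', hl', hle, rfl, rfl⟩
    have e1 : n = m := greedy_eq hB hno hn hm (h3.symm.trans h1)
    have e2 : n' = m' := greedy_eq hB hno hn' hm' (h4.symm.trans h2)
    rw [← e1, ← e2]; exact hnn
  have hmono' : ∀ l ∈ B j, ∀ l' ∈ B j, ∀ m ∈ B j', ∀ m' ∈ B j', t l j = t m j' →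
      t l' j = t m' j' → l < l' → m < m' := by
    intro l hl l' hl' m hm m' hm' h1 h2 hlt
    refine lt_of_le_of_ne (hmono l hl l' hl' m hm m' hm' h1 h2 hlt.le) ?_
    rintro rfl
    exact hlt.ne (greedy_eq hB hno hl hl' (h1.trans h2.symm))
  have hid : ∀ l, l ∈ B j → l ∈ B j' ∧ t l j = t l j' := by
    intro l
    induction l using WellFoundedLT.induction with
    | ind l ih =>
    intro hl
    obtain ⟨m, hm, hlm⟩ := hφ l hl
    have hlj := ((hB j l).1 hl).1
    have hml : ¬ m < l := by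
      intro hml
      have hmj : m ∈ B j := by
        rw [hB]
        refine ⟨hml.trans hlj, fun b hb hbm => ?_⟩
        obtain ⟨hb', hbe⟩ := ih b (hbm.trans hml) hb
        rw [hbe]
        exact ((hB j' m).1 hm).2 b hb' hbm
      obtain ⟨-, hme⟩ := ih m hml hmj
      exact hml.ne (greedy_eq hB hno hmj hl (hme.trans hlm.symm))
    have hlB : l ∈ B j' := by
      rw [hB]
      refine ⟨hlj.trans hjj, fun b hb hbl => ?_⟩
      obtain ⟨b0, hb0, hbe⟩ := hψ b hb
      rcases lt_or_ge b0 l with h0 | h0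
      · obtain ⟨hb0', hb0e⟩ := ih b0 h0 hb0
        have : b0 = b := greedy_eq hB hno hb0' hb (hb0e.symm.trans hbe)
        subst this
        rw [← hb0e]
        exact ((hB j l).1 hl).2 b0 hb0 h0
      · exact absurd (lt_of_le_of_lt (hmono l hl b0 hb0 m hm b hb hlm hbe h0) hbl) hml
    refine ⟨hlB, ?_⟩
    rcases (not_lt.1 hml).lt_or_eq with hlt | rfl
    · exfalso
      obtain ⟨l0, hl0, hl0e⟩ := hψ l hlB
      have h1 : l0 < l := by
        by_contra hge
        exact absurd (lt_of_lt_of_le hlt (hmono l hl l0 hl0 m hm l hlB hlm hl0e (not_lt.1 hge)))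
          (lt_irrefl l)
      obtain ⟨h2, h3⟩ := ih l0 h1 hl0
      exact h1.ne (greedy_eq hB hno h2 hlB (h3.symm.trans hl0e))
    · exact hlm
  have hsub : ∀ m, m ∈ B j' → m ∈ B j := by
    intro m hm
    obtain ⟨l, hl, hle⟩ := hψ m hm
    obtain ⟨h1, h2⟩ := hid l hl
    rw [← greedy_eq hB hno h1 hm (h2.symm.trans hle)]
    exact hl
  have hj : j ∈ B j' := by
    rw [hB]
    refine ⟨hjj, fun b hb _ => ?_⟩
    exact (hid b (hsub b hb)).2
  exact lt_irrefl j ((hB j j).1 (hsub j hj)).1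

/-- Without homogeneous triples, `j` is determined by the set of pairs of colours of its greedy
branch. -/
theorem greedy_inj (hB : ∀ j l, l ∈ B j ↔ l < j ∧ ∀ b ∈ B j, b < l → t b l = t b j)
    (hno : ∀ i j k, i < j → j < k → t i j = t j k → t i j = t i k → False) {j j' : I}
    (hW : ∀ x y, (∃ l ∈ B j, ∃ l' ∈ B j, l ≤ l' ∧ x = t l j ∧ y = t l' j) ↔
      ∃ l ∈ B j', ∃ l' ∈ B j', l ≤ l' ∧ x = t l j' ∧ y = t l' j') : j = j' := by
  rcases lt_trichotomy j j' with h | h | h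
  · exact (greedy_aux hB hno h hW).elim
  · exact h
  · exact (greedy_aux hB hno h fun x y => (hW x y).symm).elim

end

end Pool.Agent.ZFM.Che
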