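import Pool.Agent.CHE.Sun

/-! # Regularisation of a set of finite partial functions -/

namespace Pool.Agent.ZFM.Che

variable {S C : Type*}

/-- the union of two compatible partial functions is a partial function -/
theorem fnl_union [DecidableEq (S × C)] {s t : Finset (S × C)} (hs : Fnl s) (ht : Fnl t)
    (h : Cpt s t) : Fnl (s ∪ t) := by
  intro a c c' h1 h2
  rcases Finset.mem_union.1 h1 with h1 | h1 <;> rcases Finset.mem_union.1 h2 with h2 | h2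
  · exact hs a c c' h1 h2
  · exact h a c c' h1 h2
  · exact (h a c' c h2 h1).symm
  · exact ht a c c' h1 h2

theorem Cpt.mono {s s' t t' : Finset (S × C)} (h : Cpt s t) (hs : s' ⊆ s) (ht : t' ⊆ t) :
    Cpt s' t' := fun a c c' h1 h2 => h a c c' (hs h1) (ht h2)

theorem Fnl.mono {s t : Finset (S × C)} (h : Fnl t) (hs : s ⊆ t) : Fnl s :=
  fun a c c' h1 h2 => h a c c' (hs h1) (hs h2)

/-- the regularisation `R*` -/
def Rg (R : Set (Finset (S × C))) : Set (Finset (S × C)) :=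
  {s | Fnl s ∧ ∀ q, Fnl q → s ⊆ q → ∃ r ∈ R, Cpt q r}

/-- the minimal elements of `R*` -/
def Mn (R : Set (Finset (S × C))) : Set (Finset (S × C)) :=
  {s | s ∈ Rg R ∧ ∀ t ∈ Rg R, t ⊆ s → t = s}

theorem subset_rg {R : Set (Finset (S × C))} (hR : ∀ s ∈ R, Fnl s) : R ⊆ Rg R :=
  fun s hs => ⟨hR s hs, fun _ hq hsq => ⟨s, hs, fun a c c' h1 h2 => hq a c c' h1 (hsq h2)⟩⟩

theorem rg_up {R : Set (Finset (S × C))} {s q : Finset (S × C)} (hs : s ∈ Rg R) (hq : Fnl q)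
    (h : s ⊆ q) : q ∈ Rg R := ⟨hq, fun q' hq' hqq' => hs.2 q' hq' (h.trans hqq')⟩

theorem rg_regular {R : Set (Finset (S × C))} {s : Finset (S × C)} (hs : Fnl s)
    (h : ∀ q, Fnl q → s ⊆ q → ∃ t ∈ Rg R, Cpt q t) : s ∈ Rg R := by
  classical
  refine ⟨hs, fun q hq hsq => ?_⟩
  obtain ⟨t, ht, hqt⟩ := h q hq hsq
  obtain ⟨r, hr, hc⟩ := ht.2 (q ∪ t) (fnl_union hq ht.1 hqt) Finset.subset_union_right
  exact ⟨r, hr, hc.mono Finset.subset_union_left (Finset.Subset.refl _)⟩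

theorem exists_mn {R : Set (Finset (S × C))} {s : Finset (S × C)} (hs : s ∈ Rg R) :
    ∃ t ∈ Mn R, t ⊆ s := by
  induction s using Finset.strongInduction with
  | H s ih =>
    by_cases hm : ∀ t ∈ Rg R, t ⊆ s → t = s
    · exact ⟨s, ⟨hs, hm⟩, Finset.Subset.refl _⟩
    · push Not at hm
      obtain ⟨t, ht, hts, hne⟩ := hm
      obtain ⟨u, hu, hut⟩ := ih t (lt_of_le_of_ne hts hne) ht
      exact ⟨u, hu, hut.trans hts⟩

theorem mem_rg_iff {R : Set (Finset (S × C))} {s : Finset (S × C)} :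
    s ∈ Rg R ↔ Fnl s ∧ ∃ t ∈ Mn R, t ⊆ s :=
  ⟨fun h => ⟨h.1, exists_mn h⟩, fun ⟨h1, _, ht, hts⟩ => rg_up ht.1 h1 hts⟩

theorem rg_eq_of_mn_eq {R R' : Set (Finset (S × C))} (h : Mn R = Mn R') : Rg R = Rg R' := by
  ext s
  rw [mem_rg_iff, mem_rg_iff, h]

theorem rg_incompat {R R' : Set (Finset (S × C))} (hR : ∀ s ∈ R, Fnl s)
    (h : ∀ r ∈ R, ∀ r' ∈ R', ¬ Cpt r r') {s s' : Finset (S × C)} (hs : s ∈ Rg R)
    (hs' : s' ∈ Rg R') : ¬ Cpt s s' := by
  classical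
  intro hc
  have hq : Fnl (s ∪ s') := fnl_union hs.1 hs'.1 hc
  obtain ⟨r, hr, hqr⟩ := hs.2 _ hq Finset.subset_union_left
  obtain ⟨r', hr', hqr'⟩ := hs'.2 _ (fnl_union hq (hR r hr) hqr)
    (Finset.subset_union_right.trans Finset.subset_union_left)
  exact h r hr r' hr' (hqr'.mono Finset.subset_union_right (Finset.Subset.refl _))

/-- (b) for the regularisation -/
theorem mn_finite (Cl : Set C) (hC : Cl.Finite) (l : ℕ) (R : Set (Finset (S × C))) :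
    {s ∈ Mn R | s.card ≤ l ∧ ∀ x ∈ s, x.2 ∈ Cl}.Finite := by
  refine (finite_minimal Cl hC l (Rg R) (fun s hs => hs.1) fun s hs h => rg_regular hs h).subset ?_
  rintro s ⟨⟨h1, h2⟩, h3, h4⟩
  exact ⟨h1, h2, h3, h4⟩

end Pool.Agent.ZFM.Che
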