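import Mathlib

/-! # Finite partial functions: roots of infinite families -/

namespace Pool.Agent.ZFM.Che

variable {S C : Type*}

/-- `s` is (the graph of) a partial function -/
def Fnl (s : Finset (S × C)) : Prop := ∀ a c c', (a, c) ∈ s → (a, c') ∈ s → c = c'

/-- `s` and `t` agree on the common part of their domains -/
def Cpt (s t : Finset (S × C)) : Prop := ∀ a c c', (a, c) ∈ s → (a, c') ∈ t → c = c'

theorem Cpt.symm {s t : Finset (S × C)} (h : Cpt s t) : Cpt t s :=
  fun a c c' h1 h2 => (h a c' c h2 h1).symm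

/-- A weak form of the sunflower lemma for infinite families. -/
theorem exists_root (Cl : Set C) (hC : Cl.Finite) (l : ℕ) :
    ∀ F : Set (Finset (S × C)), F.Infinite → (∀ s ∈ F, s.card ≤ l) →
      (∀ s ∈ F, ∀ x ∈ s, x.2 ∈ Cl) →
      ∃ r : Finset (S × C), ∀ D : Finset S,
        {s ∈ F | r ⊆ s ∧ ∀ x ∈ s, x ∉ r → x.1 ∉ D}.Infinite := by
  classical
  induction l with
  | zero =>
    intro F hF hl _
    exfalso
    apply hF
    refine (Set.finite_singleton (∅ : Finset (S × C))).subset ?_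
    intro s hs
    have := hl s hs
    simpa using this
  | succ l ih =>
    intro F hF hl hv
    by_cases h : ∀ D : Finset S, {s ∈ F | ∀ x ∈ s, x.1 ∉ D}.Infinite
    · refine ⟨∅, fun D => ?_⟩
      refine (h D).mono ?_
      rintro s ⟨hs, hD⟩
      exact ⟨hs, Finset.empty_subset s, fun x hx _ => hD x hx⟩
    · push Not at h
      obtain ⟨D, hD⟩ := h
      -- infinitely many members meet `D`
      have hinf : {s ∈ F | ∃ x ∈ s, x.1 ∈ D}.Infinite := by
        intro hfin
        apply hF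
        refine (hD.union hfin).subset ?_
        intro s hs
        by_cases hx : ∃ x ∈ s, x.1 ∈ D
        · exact Or.inr ⟨hs, hx⟩
        · push Not at hx
          exact Or.inl ⟨hs, hx⟩
      -- one pair in infinitely many members
      have hfinDC : ((D : Set S) ×ˢ Cl).Finite := D.finite_toSet.prod hC
      obtain ⟨x, hx⟩ : ∃ x : S × C, {s ∈ F | x ∈ s}.Infinite := by
        by_contra hno
        push Not at hno
        apply hinf
        have : {s ∈ F | ∃ x ∈ s, x.1 ∈ D} ⊆ ⋃ x ∈ ((D : Set S) ×ˢ Cl), {s ∈ F | x ∈ s} := by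
          rintro s ⟨hs, x, hx, hxD⟩
          simp only [Set.mem_iUnion]
          exact ⟨x, ⟨hxD, hv s hs x hx⟩, hs, hx⟩
        exact (hfinDC.biUnion fun x _ => by simpa using hno x).subset this
      have hG : ((fun s : Finset (S × C) => s.erase x) '' {s ∈ F | x ∈ s}).Infinite := by
        apply hx.image
        rintro s ⟨_, hs⟩ t ⟨_, ht⟩ hst
        simp only at hst
        rw [← Finset.insert_erase hs, ← Finset.insert_erase ht, hst]
      obtain ⟨r, hr⟩ := ih _ hG (by
        rintro _ ⟨s, ⟨hs, hxs⟩, rfl⟩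
        have := hl s hs
        rw [Finset.card_erase_of_mem hxs]
        omega) (by
        rintro _ ⟨s, ⟨hs, hxs⟩, rfl⟩ y hy
        exact hv s hs y (Finset.mem_of_mem_erase hy))
      refine ⟨insert x r, fun D' => ?_⟩
      have h1 := hr D'
      have h2 : ((fun s : Finset (S × C) => insert x s) '' {s ∈ (fun s : Finset (S × C) => s.erase x) ''
          {s ∈ F | x ∈ s} | r ⊆ s ∧ ∀ y ∈ s, y ∉ r → y.1 ∉ D'}).Infinite := by
        apply h1.image
        rintro s ⟨⟨s', ⟨_, _⟩, rfl⟩, _⟩ t ⟨⟨t', ⟨_, _⟩, rfl⟩, _⟩ hst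
        simp only at hst
        have := congrArg (fun u : Finset (S × C) => u.erase x) hst
        simpa using this
      refine h2.mono ?_
      rintro _ ⟨_, ⟨⟨s, ⟨hs, hxs⟩, rfl⟩, hrs, hD'⟩, rfl⟩
      simp only [Finset.insert_erase hxs]
      refine ⟨hs, ?_, ?_⟩
      · intro y hy
        rcases Finset.mem_insert.1 hy with rfl | hy
        · exact hxs
        · exact Finset.mem_of_mem_erase (hrs hy)
      · intro y hy hyr
        rw [Finset.mem_insert, not_or] at hyr
        exact hD' y (Finset.mem_erase.2 ⟨hyr.1, hy⟩) hyr.2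

/-- (a): an infinite family of small partial functions with values in a finite set has two
compatible members. -/
theorem exists_cpt (Cl : Set C) (hC : Cl.Finite) (l : ℕ) (F : Set (Finset (S × C)))
    (hF : F.Infinite) (hl : ∀ s ∈ F, s.card ≤ l) (hv : ∀ s ∈ F, ∀ x ∈ s, x.2 ∈ Cl)
    (hf : ∀ s ∈ F, Fnl s) : ∃ s ∈ F, ∃ t ∈ F, s ≠ t ∧ Cpt s t := by
  classical
  obtain ⟨r, hr⟩ := exists_root Cl hC l F hF hl hv
  obtain ⟨s, hs, hrs, -⟩ := (hr ∅).nonempty
  obtain ⟨t, ⟨ht, hrt, hd⟩, hts⟩ := (hr (s.image Prod.fst)).exists_notMem_finset {s}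
  refine ⟨s, hs, t, ht, fun h => hts (by simp [h]), ?_⟩
  intro a c c' hac hac'
  by_cases hmem : (a, c') ∈ r
  · exact hf s hs a c c' hac (hrs hmem)
  · exact absurd (Finset.mem_image.2 ⟨(a, c), hac, rfl⟩) (hd (a, c') hac' hmem)

/-- (b): the small minimal elements of a regular set. -/
theorem finite_minimal (Cl : Set C) (hC : Cl.Finite) (l : ℕ) (R : Set (Finset (S × C)))
    (hf : ∀ s ∈ R, Fnl s)
    (hreg : ∀ s : Finset (S × C), Fnl s → (∀ q, Fnl q → s ⊆ q → ∃ t ∈ R, Cpt q t) → s ∈ R) :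
    {s ∈ R | (∀ t ∈ R, t ⊆ s → t = s) ∧ s.card ≤ l ∧ ∀ x ∈ s, x.2 ∈ Cl}.Finite := by
  classical
  by_contra hinf
  obtain ⟨r, hr⟩ := exists_root Cl hC l _ hinf (fun s hs => hs.2.2.1) (fun s hs => hs.2.2.2)
  obtain ⟨s0, ⟨hs0, _⟩, hrs0, -⟩ := (hr ∅).nonempty
  have hrR : r ∈ R := by
    apply hreg r (fun a c c' h1 h2 => hf s0 hs0 a c c' (hrs0 h1) (hrs0 h2))
    intro q hq hrq
    obtain ⟨t, ⟨ht, _⟩, hrt, hd⟩ := (hr (q.image Prod.fst)).nonempty
    refine ⟨t, ht, ?_⟩
    intro a c c' hac hac'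
    by_cases hmem : (a, c') ∈ r
    · exact hq a c c' hac (hrq hmem)
    · exact absurd (Finset.mem_image.2 ⟨(a, c), hac, rfl⟩) (hd (a, c') hac' hmem)
  obtain ⟨t, ⟨⟨ht, hmin, _⟩, hrt, _⟩, htr⟩ := (hr ∅).exists_notMem_finset {r}
  exact htr (by simp [hmin r hrR hrt])

end Pool.Agent.ZFM.Che
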