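import Pool.Agent.CHE.Sun

/-! # The involution attached to a homogeneous triple -/

namespace Pool.Agent.ZFM.Che

variable {S C D : Type*}

/-- A homogeneous triple gives equal labels on the common part. -/
theorem label_eq {Ai Aj Ak : Set S} {Li Lj Lk : S → D} (hi : Set.InjOn Li Ai)
    (hj : Set.InjOn Lj Aj)
    (h1 : ∀ d e, (∃ a, a ∈ Ai ∧ a ∈ Aj ∧ Li a = d ∧ Lj a = e) ↔
      ∃ a, a ∈ Ai ∧ a ∈ Ak ∧ Li a = d ∧ Lk a = e)
    (h2 : ∀ d e, (∃ a, a ∈ Ai ∧ a ∈ Aj ∧ Li a = d ∧ Lj a = e) ↔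
      ∃ a, a ∈ Aj ∧ a ∈ Ak ∧ Lj a = d ∧ Lk a = e) {a : S} (hai : a ∈ Ai) (haj : a ∈ Aj) :
    Li a = Lj a := by
  obtain ⟨b, hbi, hbk, hb1, hb2⟩ := (h1 (Li a) (Lj a)).1 ⟨a, hai, haj, rfl, rfl⟩
  obtain rfl : b = a := hi hbi hai hb1
  obtain ⟨c, hci, hcj, hc1, hc2⟩ := (h2 (Lj b) (Lj b)).2 ⟨b, haj, hbk, rfl, hb2⟩
  obtain rfl : c = b := hj hcj haj hc2
  exact hc1

/-- The involution which exchanges two labelled sets. -/
theorem exists_swap {Ai Aj : Set S} {Li Lj : S → D} (hi : Set.InjOn Li Ai)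
    (hj : Set.InjOn Lj Aj) (hr : Li '' Ai = Lj '' Aj) (he : ∀ a ∈ Ai, a ∈ Aj → Li a = Lj a) :
    ∃ π : S → S, (∀ a, π (π a) = a) ∧ (∀ a ∈ Ai, π a ∈ Aj ∧ Lj (π a) = Li a) ∧
      (∀ a ∈ Aj, π a ∈ Ai ∧ Li (π a) = Lj a) ∧ ∀ a ∈ Ai, a ∈ Aj → π a = a := by
  classical
  have h1 : ∀ a ∈ Ai, ∃ b, b ∈ Aj ∧ Lj b = Li a := by
    intro a ha
    have : Li a ∈ Lj '' Aj := hr ▸ Set.mem_image_of_mem _ ha
    obtain ⟨b, hb, hbe⟩ := this
    exact ⟨b, hb, hbe⟩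
  have h2 : ∀ a ∈ Aj, ∃ b, b ∈ Ai ∧ Li b = Lj a := by
    intro a ha
    have : Lj a ∈ Li '' Ai := hr ▸ Set.mem_image_of_mem _ ha
    obtain ⟨b, hb, hbe⟩ := this
    exact ⟨b, hb, hbe⟩
  choose f hf hf' using h1
  choose g hg hg' using h2
  let π : S → S := fun a => if h : a ∈ Ai then f a h else if h' : a ∈ Aj then g a h' else a
  have πi : ∀ a (h : a ∈ Ai), π a = f a h := fun a h => by simp [π, h]
  have πb : ∀ a ∈ Ai, a ∈ Aj → π a = a := by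
    intro a h h'
    rw [πi a h]
    exact hj (hf a h) h' ((hf' a h).trans (he a h h'))
  have πj : ∀ a (h : a ∈ Aj), π a = g a h := by
    intro a h
    by_cases h' : a ∈ Ai
    · rw [πb a h' h]
      exact (hi (hg a h) h' ((hg' a h).trans (he a h' h).symm)).symm
    · simp [π, h, h']
  have hA : ∀ a ∈ Ai, π a ∈ Aj ∧ Lj (π a) = Li a := by
    intro a h; rw [πi a h]; exact ⟨hf a h, hf' a h⟩
  have hB : ∀ a ∈ Aj, π a ∈ Ai ∧ Li (π a) = Lj a := by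
    intro a h; rw [πj a h]; exact ⟨hg a h, hg' a h⟩
  refine ⟨π, ?_, hA, hB, πb⟩
  intro a
  by_cases h : a ∈ Ai
  · obtain ⟨h3, h4⟩ := hA a h
    obtain ⟨h5, h6⟩ := hB _ h3
    exact hi h5 h (h6.trans h4)
  · by_cases h' : a ∈ Aj
    · obtain ⟨h3, h4⟩ := hB a h'
      obtain ⟨h5, h6⟩ := hA _ h3
      exact hj h5 h' (h6.trans h4)
    · have : π a = a := by simp [π, h, h']
      rw [this, this]

/-- the image of a partial function under a map of the index set -/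
def mp [DecidableEq (D × C)] (f : S → D) (s : Finset (S × C)) : Finset (D × C) :=
  s.image fun x => (f x.1, x.2)

theorem mem_mp [DecidableEq (D × C)] {f : S → D} {s : Finset (S × C)} {d : D} {c : C} :
    (d, c) ∈ mp f s ↔ ∃ a, (a, c) ∈ s ∧ f a = d := by
  simp only [mp, Finset.mem_image, Prod.mk.injEq]
  constructor
  · rintro ⟨⟨a, c'⟩, h, h1, h2⟩
    simp only at h1 h2
    subst h2
    exact ⟨a, h, h1⟩
  · rintro ⟨a, h, h1⟩
    exact ⟨(a, c), h, h1, rfl⟩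

theorem mp_mono [DecidableEq (D × C)] {f : S → D} {s t : Finset (S × C)} (h : s ⊆ t) :
    mp f s ⊆ mp f t := Finset.image_subset_image h

section

variable [DecidableEq (S × C)]

theorem mp_mp {π : S → S} (h : ∀ a, π (π a) = a) (s : Finset (S × C)) : mp π (mp π s) = s := by
  ext ⟨a, c⟩
  rw [mem_mp]
  constructor
  · rintro ⟨b, hb, rfl⟩
    obtain ⟨e, he, rfl⟩ := mem_mp.1 hb
    rw [h e]; exact he
  · intro hac
    exact ⟨π a, mem_mp.2 ⟨a, hac, rfl⟩, h a⟩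

theorem fnl_mp {π : S → S} (h : ∀ a, π (π a) = a) {s : Finset (S × C)} (hs : Fnl s) :
    Fnl (mp π s) := by
  intro a c c' h1 h2
  obtain ⟨b, hb, rfl⟩ := mem_mp.1 h1
  obtain ⟨b', hb', he⟩ := mem_mp.1 h2
  have : b' = b := by rw [← h b', he, h b]
  subst this
  exact hs b' c c' hb hb'

theorem mp_fix {π : S → S} {s : Finset (S × C)} (h : ∀ x ∈ s, π x.1 = x.1) : mp π s = s := by
  ext ⟨a, c⟩
  rw [mem_mp]
  constructor
  · rintro ⟨b, hb, rfl⟩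
    rw [h _ hb]; exact hb
  · intro hac
    exact ⟨a, hac, h _ hac⟩

/-- If the labelled codes of `Ti` and `Tj` agree, the involution exchanges them. -/
theorem mp_mem {Ai Aj : Set S} {Li Lj : S → D} [DecidableEq (D × C)] {π : S → S}
    (hj : Set.InjOn Lj Aj) (hA : ∀ a ∈ Ai, π a ∈ Aj ∧ Lj (π a) = Li a)
    {Ti Tj : Set (Finset (S × C))} (hTi : ∀ s ∈ Ti, ∀ x ∈ s, x.1 ∈ Ai)
    (hTj : ∀ s ∈ Tj, ∀ x ∈ s, x.1 ∈ Aj)
    (hc : ∀ s ∈ Ti, ∃ s' ∈ Tj, mp Li s = mp Lj s') {s : Finset (S × C)} (hs : s ∈ Ti) :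
    mp π s ∈ Tj := by
  obtain ⟨s', hs', he⟩ := hc s hs
  have : mp π s = s' := by
    ext ⟨a, c⟩
    rw [mem_mp]
    constructor
    · rintro ⟨b, hb, rfl⟩
      have h1 : (Li b, c) ∈ mp Lj s' := he ▸ mem_mp.2 ⟨b, hb, rfl⟩
      obtain ⟨b', hb', hbe⟩ := mem_mp.1 h1
      obtain ⟨h2, h3⟩ := hA b (hTi s hs _ hb)
      have : b' = π b := hj (hTj s' hs' _ hb') h2 (hbe.trans h3.symm)
      rw [← this]; exact hb'
    · intro ha
      have h1 : (Lj a, c) ∈ mp Li s := he ▸ mem_mp.2 ⟨a, ha, rfl⟩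
      obtain ⟨b, hb, hbe⟩ := mem_mp.1 h1
      obtain ⟨h2, h3⟩ := hA b (hTi s hs _ hb)
      exact ⟨b, hb, hj h2 (hTj s' hs' _ ha) (h3.trans hbe)⟩
  rw [this]; exact hs'

end

end Pool.Agent.ZFM.Che
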